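import Pool.Agent.H927.QP.NQ
import Pool.Agent.H88.QP927.syz
import Pool.Agent.H927.QP.Inv
import Pool.Agent.H349.QP927.drel
import Pool.Agent.H357.QP927.theta
import Pool.Agent.H384.QP927.exp
import Pool.Agent.H287.QP927.kappa
import Pool.Agent.H355.QP927.phi
import Pool.Agent.H828.QP927.Phi
import Pool.Agent.H764.QP927.grp
import Pool.Agent.H764.QP927.claim

/-!
# The lower central series Lie ring of `PΣ_n` is not quadratic for `n ≥ 4`

`PΣ_n` is the group of basis-conjugating automorphisms of the free group of rank `n` (the McCool
group), `E_0^*(PΣ_n)` the graded Lie ring of its lower central series. For `n ≥ 4` it is not a free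
Lie ring modulo quadratic relations: there is a further relation in degree nine. (With rational
coefficients there is none, since `PΣ_n` is `1`-formal, so this is a torsion phenomenon at the
prime two.)

The relation. Let `χ_{kl}` be the automorphism `x_k ↦ x_l x_k x_l⁻¹`, and let `H ≅ PΣ_3` be generated
by the `χ_{kl}` with `k, l ≤ 3`. The group `G` generated by `H` and two elements `ζ_1, ζ_2` with the
relations of `χ_{14}, χ_{24}` in `PΣ_4`, except for `[ζ_1, ζ_2] = 1`, contains `[ζ_1, ζ_2]`, and the
Lie ring of `H` acts on `M ⊗ M`, where `M = A z_1 ⊕ A z_2`, `A` the free associative ring on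
`x_1, x_2, x_3`. A computation gives an element `u` of degree six of the enveloping ring (a sum of `48`
words in `χ_{21}, χ_{12}, χ_{13}` with coefficients `± 1`) with `u (z_1 ∧ z_2) = 0` in `M ⊗ M`. So the
corresponding product `W` of commutators `[s_1, [s_2, ... [s_6, [ζ_1, ζ_2]]...]]^{±1}` lies in
`Γ_9(G)`. Its image in `PΣ_4` is trivial since `χ_{14}` and `χ_{24}` commute, so the class of `W` in
`E_0^9(G)` gives a relation of degree nine in `E_0^*(PΣ_4)`. It is not a consequence of quadratic
relations: `G` acts on a module over `ℤ/1024` such that `Γ_k(G)` acts by operators congruent to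
`1` modulo `2^k`, and the operator `(W - 1)/2^9` modulo two is detected by a pairing
`M × M → 𝔽_2` which is invariant under the Lie ring of `H`, and which therefore defines an action of
the quadratic Lie ring of `PΣ_4` on `𝔽_2 ⊕ M/2 ⊕ 𝔽_2`.
-/

set_option autoImplicit false

namespace Pool.Agent.Results.MP_df4ecf_al.PSigmaNotQuadratic

open Pool.Agent.H297.QL Pool.Agent.H927.QP

/-- **MP_df4ecf_al, Q1 (negative answer).** For `n ≥ 4` the lower central series Lie ring of the
group `PΣ_n` of basis-conjugating automorphisms of the free group of rank `n` is not isomorphic, as a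
graded Lie ring, to a free Lie ring on an abelian group modulo quadratic relations. -/
theorem result (n : ℕ) (hn : 4 ≤ n) : ¬ IsQuadratic (PSig n) :=
  not_quadratic_of hn Part_syz.syz Part_syz.num InvT.inv Part_drel.drel Part_theta.theta_rel
    Part_exp.expn (Part_grp.grp (Part_kappa.kappa Part_syz.syz)) Part_phi.phi Part_Phi.Phi_ext
    Part_claim.claim

end Pool.Agent.Results.MP_df4ecf_al.PSigmaNotQuadratic
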